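import Pool.Agent.MP_5c28a4_al.H13S.Base
import Pool.Agent.MP_5c28a4_al.H81S.Ded

/-!
Class two, the core step of the structure theorem.
-/

set_option autoImplicit false

namespace Pool.Agent.MP_5c28a4_al.H89S.StrA

open scoped commutatorElement

namespace T2bA

section Bi

variable {N C : Type} [Group N] [AddCommGroup C]

/-- a biadditive map on `P` that vanishes on `B` and is invariant under `D` -/
structure Bi (P B D : Subgroup N) (G : N → N → C) : Prop where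
  l : ∀ a ∈ P, ∀ b ∈ P, ∀ c ∈ P, G (a * b) c = G a c + G b c
  r : ∀ a ∈ P, ∀ b ∈ P, ∀ c ∈ P, G a (b * c) = G a b + G a c
  zl : ∀ a ∈ B, ∀ c ∈ P, G a c = 0
  zr : ∀ a ∈ P, ∀ c ∈ B, G a c = 0
  cj : ∀ d ∈ D, ∀ a ∈ P, ∀ c ∈ P, G (d * a * d⁻¹) (d * c * d⁻¹) = G a c

variable {P B D : Subgroup N} {G : N → N → C}

theorem Bi.invl (h : Bi P B D G) {a c : N} (ha : a ∈ P) (hc : c ∈ P) : G a⁻¹ c = - G a c := by
  have := h.l a ha a⁻¹ (P.inv_mem ha) c hc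
  rw [mul_inv_cancel, h.zl 1 B.one_mem c hc] at this
  exact (neg_eq_of_add_eq_zero_right this.symm).symm

theorem Bi.invr (h : Bi P B D G) {a c : N} (ha : a ∈ P) (hc : c ∈ P) : G a c⁻¹ = - G a c := by
  have := h.r a ha c hc c⁻¹ (P.inv_mem hc)
  rw [mul_inv_cancel, h.zr a ha 1 B.one_mem] at this
  exact (neg_eq_of_add_eq_zero_right this.symm).symm

theorem Bi.powl (h : Bi P B D G) {a c : N} (ha : a ∈ P) (hc : c ∈ P) (n : ℕ) :
    G (a ^ n) c = n • G a c := by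
  induction n with
  | zero => simp [h.zl 1 B.one_mem c hc]
  | succ n ih => rw [pow_succ, h.l _ (P.pow_mem ha n) _ ha _ hc, ih, succ_nsmul]

theorem Bi.powr (h : Bi P B D G) {a c : N} (ha : a ∈ P) (hc : c ∈ P) (n : ℕ) :
    G a (c ^ n) = n • G a c := by
  induction n with
  | zero => simp [h.zr a ha 1 B.one_mem]
  | succ n ih => rw [pow_succ, h.r _ ha _ (P.pow_mem hc n) _ hc, ih, succ_nsmul]

theorem Bi.mv (h : Bi P B D G) (hP : P.Normal) {d a c : N} (hd : d ∈ D) (ha : a ∈ P)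
    (hc : c ∈ P) : G a (d * c * d⁻¹) = G (d⁻¹ * a * d⁻¹⁻¹) c := by
  rw [← h.cj d hd _ (hP.conj_mem a ha d⁻¹) c hc]
  congr 1
  group

theorem Bi.adj (h : Bi P B D G) (hP : P.Normal) {z c t : N} (hz : z ∈ D) (hc : c ∈ P)
    (ht : t ∈ P) (w : FreeGroup ℤ) : G (evz c z w) t = G c (evz t z⁻¹ w) := by
  have m1 := fun w => Ut3A.evz_mem hc (nz_of_normal hP z) w
  have m2 := fun w => Ut3A.evz_mem ht (nz_of_normal hP z⁻¹) w
  induction w using FreeGroup.induction_on with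
  | C1 => rw [map_one, map_one, h.zl 1 B.one_mem t ht, h.zr c hc 1 B.one_mem]
  | of a =>
    rw [Ut3A.evz_of, Ut3A.evz_of, h.mv hP (D.zpow_mem (D.inv_mem hz) a) hc ht]
    congr 1
    simp
  | inv_of a ih => rw [map_inv, map_inv, h.invl (m1 _) ht, h.invr hc (m2 _), ih]
  | mul v w hv hw =>
    rw [map_mul, map_mul, h.l _ (m1 _) _ (m1 _) _ ht, h.r _ hc _ (m2 _) _ (m2 _), hv, hw]

/-- left annihilator -/
def Bi.annl (h : Bi P B D G) (k : ℕ) (Y : Set N) (hY : ∀ y ∈ Y, y ∈ P) : Subgroup N where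
  carrier := {x | x ∈ P ∧ ∀ y ∈ Y, k • G x y = 0}
  one_mem' := ⟨P.one_mem, fun y hy => by rw [h.zl 1 B.one_mem y (hY y hy), smul_zero]⟩
  mul_mem' := fun {a b} ha hb => ⟨P.mul_mem ha.1 hb.1, fun y hy => by
    rw [h.l a ha.1 b hb.1 y (hY y hy), smul_add, ha.2 y hy, hb.2 y hy, add_zero]⟩
  inv_mem' := fun {a} ha => ⟨P.inv_mem ha.1, fun y hy => by
    rw [h.invl ha.1 (hY y hy), smul_neg, ha.2 y hy, neg_zero]⟩

/-- right annihilator -/
def Bi.annr (h : Bi P B D G) (k : ℕ) (X : Set N) (hX : ∀ x ∈ X, x ∈ P) : Subgroup N where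
  carrier := {y | y ∈ P ∧ ∀ x ∈ X, k • G x y = 0}
  one_mem' := ⟨P.one_mem, fun x hx => by rw [h.zr x (hX x hx) 1 B.one_mem, smul_zero]⟩
  mul_mem' := fun {a b} ha hb => ⟨P.mul_mem ha.1 hb.1, fun x hx => by
    rw [h.r x (hX x hx) a ha.1 b hb.1, smul_add, ha.2 x hx, hb.2 x hx, add_zero]⟩
  inv_mem' := fun {a} ha => ⟨P.inv_mem ha.1, fun x hx => by
    rw [h.invr (hX x hx) ha.1, smul_neg, ha.2 x hx, neg_zero]⟩

theorem Bi.fin (h : Bi P B D G) (hP : P.Normal) (hBP : B ≤ P) {P₁ : Subgroup N}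
    (hP₁ : P₁.Normal) (h1 : P₁ ≤ P) {X T : Set N} (hX : ∀ x ∈ X, x ∈ P) (hT : ∀ t ∈ T, t ∈ P)
    (h2 : P₁ ≤ Subgroup.closure X ⊔ B) {M k : ℕ}
    (hM : ∀ x ∈ P, x ^ M ∈ Subgroup.closure {x | ∃ d ∈ D, ∃ t ∈ T, x = d * t * d⁻¹} ⊔ B)
    (hk : ∀ x ∈ X, ∀ t ∈ T, k • G x t = 0) :
    ∀ x ∈ pw P₁ (k * M), ∀ y ∈ P, G x y = 0 := by
  have e1 : P₁ ≤ h.annl k T hT := h2.trans (sup_le ((Subgroup.closure_le _).2
    fun x hx => ⟨hX x hx, hk x hx⟩) fun x hx => ⟨hBP hx, fun t ht => by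
      rw [h.zl x hx t (hT t ht), smul_zero]⟩)
  have e2 : Subgroup.closure {x | ∃ d ∈ D, ∃ t ∈ T, x = d * t * d⁻¹} ⊔ B ≤
      h.annr k P₁ fun _ hx => h1 hx := by
    refine sup_le ((Subgroup.closure_le _).2 ?_) fun y hy => ⟨hBP hy, fun x hx => by
      rw [h.zr x (h1 hx) y hy, smul_zero]⟩
    rintro _ ⟨d, hd, t, ht, rfl⟩
    refine ⟨hP.conj_mem t (hT t ht) d, fun x hx => ?_⟩
    rw [h.mv hP hd (h1 hx) (hT t ht)]
    exact (e1 (hP₁.conj_mem x hx d⁻¹)).2 t ht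
  have e3 : pw P₁ (k * M) ≤ h.annl 1 P fun _ hx => hx := pw_le_of fun x hx =>
    ⟨P.pow_mem (h1 hx) _, fun y hy => by
      have := (e2 (hM y hy)).2 x hx
      rw [h.powr (h1 hx) hy, smul_smul] at this
      rw [one_smul, h.powl (h1 hx) hy, this]⟩
  intro x hx y hy
  simpa using (e3 hx).2 y hy

end Bi

section Fl

variable {N M : Type} [Group N] [AddCommGroup M]

/-- the elements whose words of length `j` lie in `V` -/
def fl (τ : Representation ℤ N M) (D : Set N) (V : Submodule ℤ M) (j : ℕ) : Submodule ℤ M where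
  carrier := {b | ∀ l : List N, l.length = j → (∀ d ∈ l, d ∈ D) → wd τ l b ∈ V}
  zero_mem' := fun l _ _ => by rw [map_zero]; exact V.zero_mem
  add_mem' := fun ha hb l hl hd => by rw [map_add]; exact V.add_mem (ha l hl hd) (hb l hl hd)
  smul_mem' := fun c _ ha l hl hd => by rw [map_smul]; exact V.smul_mem c (ha l hl hd)

variable {τ : Representation ℤ N M}

theorem mem_fl {D : Set N} {V : Submodule ℤ M} {j : ℕ} {b : M} : b ∈ fl τ D V j ↔
    ∀ l : List N, l.length = j → (∀ d ∈ l, d ∈ D) → wd τ l b ∈ V := Iff.rfl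

theorem fl_zero (D : Set N) : fl τ D ⊥ 0 = ⊥ := by
  rw [eq_bot_iff]
  intro b hb
  exact hb [] rfl (by simp)

theorem fl_step {D : Set N} {V : Submodule ℤ M} {j : ℕ} {d : N} (hd : d ∈ D) {x : M}
    (hx : x ∈ fl τ D V (j + 1)) : τ d x - x ∈ fl τ D V j := by
  intro l hl hD
  have := hx (l ++ [d]) (by simp [hl]) (by
    intro y hy
    rcases List.mem_append.1 hy with hy | hy
    · exact hD y hy
    · rw [List.mem_singleton.1 hy]; exact hd)
  rw [wd_append, wd_cons, wd_nil, mul_one] at this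
  exact this

theorem fl_mono {D D' : Set N} {V V' : Submodule ℤ M} (hD : D' ⊆ D) (hV : V ≤ V') (j : ℕ) :
    fl τ D V j ≤ fl τ D' V' j := fun _ hb l hl hd => hV (hb l hl fun d h => hD (hd d h))

theorem aug_fl (D : Set N) (V : Submodule ℤ M) (j : ℕ) : aug τ D (fl τ D V j) j ≤ V := by
  rw [aug, Submodule.span_le]
  rintro _ ⟨l, hl, hd, a, ha, rfl⟩
  exact ha l hl hd

theorem bi_of {P D : Subgroup N} {f : N → M} (hB : Cm ⁅P, P⁆ P) (hs : IsSec ⁅P, P⁆ ⊥ τ f)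
    (V : Submodule ℤ M) (hV : ∀ d ∈ D, ∀ x, τ d x - x ∈ V) :
    Bi P ⁅P, P⁆ D fun x y => V.mkQ (f ⁅x, y⁆) where
  l a ha b hb c hc := by
    rw [Ut3A.comm_mul_left hB le_rfl ha hb hc, hs.add _ (Ut3A.comm_mem le_rfl ha hc) _
      (Ut3A.comm_mem le_rfl hb hc), map_add]
  r a ha b hb c hc := by
    rw [Ut3A.comm_mul_right hB le_rfl ha hb hc, hs.add _ (Ut3A.comm_mem le_rfl ha hb) _
      (Ut3A.comm_mem le_rfl ha hc), map_add]
  zl a ha c hc := by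
    rw [commutatorElement_eq_one_iff_mul_comm.2 (hB a ha c hc), hs.one, map_zero]
  zr a ha c hc := by
    rw [commutatorElement_eq_one_iff_mul_comm.2 (hB c hc a ha).symm, hs.one, map_zero]
  cj d hd a ha c hc := by
    have : ⁅d * a * d⁻¹, d * c * d⁻¹⁆ = d * ⁅a, c⁆ * d⁻¹ := by
      simp only [commutatorElement_def]; group
    rw [this, hs.conj d _ (Ut3A.comm_mem le_rfl ha hc), Submodule.mkQ_apply, Submodule.mkQ_apply,
      Submodule.Quotient.eq]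
    exact hV d hd _

end Fl

end T2bA

open T2bA in
theorem t2b (_ : BCom) (hsec : XSec) (hfin : XFin) (hsum : XSum) (huni : XUni) : XT2b := by
  intro Λ N A _ _ ρ r w a n P P₁ D v M T S ha hn hP hP2 hid hD hfg hitc hT hM hgen hS hP₁ h1 h2
  classical
  have hB : Cm ⁅P, P⁆ P := Ut3A.cm_of_lcs_two hP2
  have hBn : (⁅P, P⁆ : Subgroup N).Normal := Subgroup.commutator_normal _ _
  have hBP : ⁅P, P⁆ ≤ P := Subgroup.commutator_le_left _ _
  have hBB : Cm ⁅P, P⁆ ⁅P, P⁆ := fun b hb x hx => hB b hb x (hBP hx)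
  obtain ⟨C, _, τ, f, hs⟩ := hsec N ⁅P, P⁆ ⊥ hBn inferInstance bot_le (cm_iff.1 hBB).le
  obtain ⟨TD, hTD⟩ := hfg
  have hTDD : (TD : Set N) ⊆ D := hTD ▸ Subgroup.subset_closure
  have htop : ∀ x, x ∈ fl τ D ⊥ (v + 1) := by
    intro x l hl hd
    obtain ⟨y, hy, rfl⟩ := hs.surj x
    obtain ⟨y', hy', he⟩ := hs.wd_itc hBn le_rfl l hd hy
    rw [hl, hitc, Subgroup.mem_bot] at hy'
    rw [← he, hy', hs.one]
    exact Submodule.zero_mem _
  have hinv : ∀ d ∈ D, ∀ x, τ d x - x ∈ fl τ D ⊥ v := fun d hd x => fl_step hd (htop x)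
  have hG := bi_of hB hs _ hinv
  have key : ∀ i : S × T × (Fin v → TD), ∃ j n' : ℕ, 0 < j ∧ Kill ρ a {x | x ∈ ⁅P, P⁆ ∧
      ∃ y ∈ {m | ∃ x ∈ cov P ⁅P, P⁆ w i.1, m = n • f ⁅x, (i.2.1 : N)⁆},
        f x = j • wd τ (List.ofFn fun k => (i.2.2 k : N)) y} n' := by
    rintro ⟨⟨z, hz⟩, ⟨t, ht⟩, l⟩
    have m2 := fun w => Ut3A.evz_mem (hT t ht) (nz_of_normal hP z⁻¹) w
    refine huni N A C ρ τ f ⁅P, P⁆ D (fl τ D ⊥) a r v
      (fun k => {x | ∃ c ∈ P, x = ⁅c, evz t z⁻¹ (w k)⁆ ^ n}) _ hBn hBB hs (fl_zero _)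
      (fun j d hd x hx => fl_step hd hx) ?_ ?_ ?_ _ (by simp) ?_
    · rintro k _ ⟨c, hc, rfl⟩
      exact ⟨Subgroup.pow_mem _ (Ut3A.comm_mem le_rfl hc (m2 _)) n, htop _⟩
    · intro y hy
      choose c hc he using hy
      rw [funext he]
      exact hid z⁻¹ t c (hT t ht) hc
    · rintro k _ ⟨x, ⟨hx, hx'⟩, rfl⟩
      obtain ⟨c, hc, hxc⟩ := hx' k
      have m1 := Ut3A.evz_mem hc (nz_of_normal hP z) (w k)
      refine ⟨_, ⟨c, hc, rfl⟩, ?_⟩
      rw [hs.pow (Ut3A.comm_mem le_rfl hc (m2 _)), ← smul_sub]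
      refine Submodule.smul_of_tower_mem _ n ?_
      have e1 := hG.adj hP (hS z hz) hc (hT t ht) (w k)
      have e2 := hG.l _ (hBP hxc) _ m1 t (hT t ht)
      rw [inv_mul_cancel_right, hG.zl _ hxc t (hT t ht), zero_add, e1] at e2
      exact (Submodule.Quotient.eq _).1 e2
    · intro d hd
      obtain ⟨k, rfl⟩ := List.mem_ofFn.1 hd
      exact hTDD (l k).2
  choose j n' hj hK using key
  have hY := hsum.sum Λ N A ρ ⁅P, P⁆ _ _ hBB (fun i x hx => hx.1) fun i => ⟨a, ha, n' i, hK i⟩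
  generalize hY0 : Subgroup.closure (G := N) _ = Y at hY
  have hle : fl τ D ⊥ v ≤ fl τ TD (hs.img Y) v := fl_mono hTDD bot_le v
  have hG' := bi_of hB hs _ fun d hd x => hle (hinv d hd x)
  have hz := hG'.fin hP hBP hP₁ h1 (X := ⋃ z ∈ S, cov P ⁅P, P⁆ w z) (T := T)
    (k := (∏ i, j i) * n) (by
      intro x hx
      obtain ⟨z, -, hx⟩ := Set.mem_iUnion₂.1 hx
      exact hx.1) hT h2 hgen (by
      intro x hx t ht
      obtain ⟨z, hz, hx⟩ := Set.mem_iUnion₂.1 hx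
      rw [← map_nsmul, Submodule.mkQ_apply, Submodule.Quotient.mk_eq_zero]
      intro l hl hd
      obtain ⟨g, rfl⟩ : ∃ g : Fin v → TD, l = List.ofFn fun k => (g k : N) := by
        subst hl
        exact ⟨fun k => ⟨l.get k, hd _ (List.get_mem l k)⟩, (List.ofFn_get l).symm⟩
      obtain ⟨q, hq⟩ := Finset.dvd_prod_of_mem j (Finset.mem_univ (⟨z, hz⟩, ⟨t, ht⟩, g))
      rw [hq, mul_comm (j _), mul_assoc, mul_smul, mul_smul, map_nsmul, map_nsmul]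
      refine Submodule.smul_of_tower_mem _ q ?_
      obtain ⟨y, hy, he⟩ := hs.surj (j (⟨z, hz⟩, ⟨t, ht⟩, g) •
        wd τ (List.ofFn fun k => (g k : N)) (n • f ⁅x, t⁆))
      refine ⟨y, ?_, hy, he⟩
      rw [← hY0]
      exact Subgroup.subset_closure (Set.mem_iUnion.2 ⟨(⟨z, hz⟩, ⟨t, ht⟩, g), hy, _,
        ⟨x, hx, rfl⟩, he⟩))
  refine ⟨(∏ i, j i) * n * M, Nat.mul_pos (Nat.mul_pos (Finset.prod_pos fun i _ => hj i) hn) hM,
    tame_mono hY fun x hx => ?_⟩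
  have hp := (pw_le P₁ ((∏ i, j i) * n * M)).trans h1
  have hX := Subgroup.commutator_mono hp hp
  have hV : ⁅pw P₁ ((∏ i, j i) * n * M), pw P₁ ((∏ i, j i) * n * M)⁆ ≤
      hs.pre (fl τ TD (hs.img Y) v) := by
    rw [Subgroup.commutator_le]
    intro x hx y hy
    exact ⟨Ut3A.comm_mem le_rfl (hp hx) (hp hy),
      (Submodule.Quotient.mk_eq_zero _).1 (hz x hx y (hp hy))⟩
  have e1 := hs.itc_aug hBn hX D v x hx
  have e2 : f x ∈ aug τ (Subgroup.closure (TD : Set N)) (fl τ TD (hs.img Y) v) v := by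
    rw [hTD]
    refine aug_mono le_rfl ?_ v e1
    rintro _ ⟨y, hy, rfl⟩
    exact (hV hy).2
  have e3 := aug_fl _ _ _ (hfin N C τ TD _ v (by
    intro d hd b hb
    rw [hTD] at hd
    have := Submodule.add_mem _ (hle (hinv d hd b)) hb
    rwa [sub_add_cancel] at this) e2)
  have e4 := hs.mem_sup (itc_le hBn hX D v hx) e3
  rwa [sup_bot_eq] at e4

end Pool.Agent.MP_5c28a4_al.H89S.StrA
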