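import Pool.Agent.MP_5c28a4_al.H89S.Spec

/-!
Row B2: virtually nilpotent quotients.
-/

set_option autoImplicit false

namespace Pool.Agent.MP_5c28a4_al.H89S

open scoped commutatorElement

namespace BVnA

section Basic

variable {G G' : Type} [Group G] [Group G']

theorem mono {K K' : Subgroup G} (h : CoVN K) (hle : K ≤ K') (hn : K'.Normal) : CoVN K' := by
  obtain ⟨-, H, d, h1, h2, h3⟩ := h
  exact ⟨hn, H, d, h1, h2, h3.trans hle⟩

theorem inf {K K' : Subgroup G} (h : CoVN K) (h' : CoVN K') : CoVN (K ⊓ K') := by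
  obtain ⟨hK, H, d, h1, h2, h3⟩ := h
  obtain ⟨hK', H', d', h1', h2', h3'⟩ := h'
  refine ⟨inferInstance, H ⊓ H', max d d', inferInstance, inferInstance, le_inf ?_ ?_⟩
  · exact (((H ⊓ H').lowerCentralSeries_antitone (le_max_left d d')).trans
      (Subgroup.lowerCentralSeries_mono d inf_le_left)).trans h3
  · exact (((H ⊓ H').lowerCentralSeries_antitone (le_max_right d d')).trans
      (Subgroup.lowerCentralSeries_mono d' inf_le_right)).trans h3'

theorem fi_comap (f : G →* G') (H : Subgroup G') (h : H.FiniteIndex) :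
    (H.comap f).FiniteIndex := by
  refine ⟨?_⟩
  rw [Subgroup.index_comap]
  intro h0
  have := Subgroup.relIndex_eq_zero_of_le_right (le_top : f.range ≤ ⊤) h0
  rw [Subgroup.relIndex_top_right] at this
  exact h.index_ne_zero this

theorem comap (f : G →* G') {K : Subgroup G'} (h : CoVN K) : CoVN (K.comap f) := by
  obtain ⟨hK, H, d, h1, h2, h3⟩ := h
  refine ⟨inferInstance, H.comap f, d, inferInstance, fi_comap f H h2, ?_⟩
  rw [← Subgroup.map_le_iff_le_comap, Subgroup.map_lowerCentralSeries]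
  exact (Subgroup.lowerCentralSeries_mono d (Subgroup.map_comap_le f H)).trans h3

theorem map (f : G →* G') {K : Subgroup G} (hf : Function.Surjective f) (h : CoVN K) :
    CoVN (K.map f) := by
  obtain ⟨hK, H, d, h1, h2, h3⟩ := h
  refine ⟨hK.map f hf, H.map f, d, h1.map f hf, ⟨?_⟩, ?_⟩
  · intro h0
    have := H.index_map_dvd hf
    rw [h0, zero_dvd_iff] at this
    exact h2.index_ne_zero this
  · rw [← Subgroup.map_lowerCentralSeries]
    exact Subgroup.map_mono h3

theorem ofComap (f : G →* G') {K : Subgroup G'} (hf : Function.Surjective f)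
    (h : CoVN (K.comap f)) : CoVN K := by
  have := map f hf h
  rwa [Subgroup.map_comap_eq_self_of_surjective hf] at this

theorem quot (K : Subgroup G) [K.Normal] : CoVN K ↔ VN (G ⧸ K) := by
  have e : (⊥ : Subgroup (G ⧸ K)).comap (QuotientGroup.mk' K) = K := by
    rw [MonoidHom.comap_bot, QuotientGroup.ker_mk']
  constructor
  · intro h
    refine ofComap (QuotientGroup.mk' K) (QuotientGroup.mk'_surjective K) ?_
    rwa [e]
  · intro h
    have := comap (QuotientGroup.mk' K) h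
    rwa [e] at this

/-- the centraliser of a finite normal subgroup has finite index -/
theorem cent_fi (F : Subgroup G) [F.Normal] [Finite F] :
    (Subgroup.centralizer (F : Set G)).FiniteIndex := by
  have h1 : (MulAut.conjNormal (H := F)).ker.FiniteIndex := inferInstance
  refine Subgroup.finiteIndex_of_le (H := (MulAut.conjNormal (H := F)).ker) ?_
  intro g hg
  rw [Subgroup.mem_centralizer_iff]
  intro x hx
  have h2 : ((MulAut.conjNormal g (⟨x, hx⟩ : F) : F) : G) = x := by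
    rw [MonoidHom.mem_ker] at hg
    rw [hg]
    rfl
  rw [MulAut.conjNormal_apply] at h2
  calc x * g = g * x * g⁻¹ * g := by rw [h2]
    _ = g * x := by group

theorem vn_of_finite (F : Subgroup G) [Finite F] (h : CoVN F) : VN G := by
  obtain ⟨hK, H, d, h1, h2, h3⟩ := h
  have h4 := cent_fi F
  refine ⟨inferInstance, H ⊓ Subgroup.centralizer (F : Set G), d + 1, inferInstance,
    inferInstance, ?_⟩
  rw [Subgroup.lowerCentralSeries_succ]
  refine (Subgroup.commutator_mono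
    ((Subgroup.lowerCentralSeries_mono d inf_le_left).trans h3) inf_le_right).trans ?_
  rw [le_bot_iff, Subgroup.commutator_comm, Subgroup.commutator_eq_bot_iff_le_centralizer]

theorem fin {K K' : Subgroup G} (h : CoVN K) (hn : K'.Normal) (hi : K'.relIndex K ≠ 0) :
    CoVN K' := by
  rw [quot]
  have h1 := map (QuotientGroup.mk' K') (QuotientGroup.mk'_surjective K') h
  have h2 : Finite (K.map (QuotientGroup.mk' K')) := by
    apply Nat.finite_of_card_ne_zero
    rw [← Subgroup.relIndex_ker, QuotientGroup.ker_mk']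
    exact hi
  exact vn_of_finite _ h1

theorem itc_normal (K D : Subgroup G) [K.Normal] [D.Normal] (n : ℕ) : (itc K D n).Normal := by
  induction n with
  | zero => exact ‹K.Normal›
  | succ n ih =>
    change (⁅itc K D n, D⁆).Normal
    infer_instance

theorem itc' {K D : Subgroup G} (n : ℕ) (h : CoVN K) (hD : D.Normal) (hi : D.FiniteIndex) :
    CoVN (itc K D n) := by
  obtain ⟨hK, H, d, h1, h2, h3⟩ := h
  refine ⟨itc_normal K D n, H ⊓ D, d + n, inferInstance, inferInstance, ?_⟩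
  induction n with
  | zero => exact (Subgroup.lowerCentralSeries_mono d inf_le_left).trans h3
  | succ n ih => exact Subgroup.commutator_mono ih inf_le_right

end Basic

section Cover

variable {G : Type} [Group G]

theorem cov_of {D B : Subgroup G} (h : D.relIndex B ≠ 0) :
    ∃ S : Set G, S.Finite ∧ (∀ s ∈ S, s ∈ B) ∧ ∀ y ∈ B, ∃ s ∈ S, s⁻¹ * y ∈ D := by
  have : (D.subgroupOf B).FiniteIndex := ⟨h⟩
  refine ⟨Set.range fun q : B ⧸ D.subgroupOf B => (q.out : G), Set.finite_range _, ?_, ?_⟩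
  · rintro s ⟨q, rfl⟩
    exact q.out.2
  · intro y hy
    refine ⟨_, ⟨(QuotientGroup.mk ⟨y, hy⟩ : B ⧸ D.subgroupOf B), rfl⟩, ?_⟩
    have h1 := QuotientGroup.eq.1
      (QuotientGroup.out_eq' (QuotientGroup.mk ⟨y, hy⟩ : B ⧸ D.subgroupOf B))
    exact h1

theorem of_cov {D B : Subgroup G} {S : Set G} (hS : S.Finite)
    (h : ∀ y ∈ B, ∃ s ∈ S, s⁻¹ * y ∈ D) : D.relIndex B ≠ 0 := by
  have : Finite S := hS
  choose c hc hc' using h
  have : Finite (B ⧸ D.subgroupOf B) := by
    refine Finite.of_injective (fun q : B ⧸ D.subgroupOf B =>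
      (⟨c q.out q.out.2, hc _ _⟩ : S)) ?_
    intro q q' hq
    have h1 : c q.out q.out.2 = c q'.out q'.out.2 := congrArg Subtype.val hq
    rw [← QuotientGroup.out_eq' q, ← QuotientGroup.out_eq' q', QuotientGroup.eq,
      Subgroup.mem_subgroupOf]
    have h2 := hc' q.out q.out.2
    have h3 := hc' q'.out q'.out.2
    rw [← h1] at h3
    have h4 := D.mul_mem (D.inv_mem h2) h3
    convert h4 using 1
    simp only [Subgroup.coe_mul, Subgroup.coe_inv]
    group
  exact (Subgroup.finiteIndex_of_finite_quotient (H := D.subgroupOf B)).index_ne_zero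

theorem nz_conj {t : G} {Y : Subgroup G} (h : Nz t Y) (k : ℤ) {y : G} (hy : y ∈ Y) :
    t ^ k * y * (t ^ k)⁻¹ ∈ Y := by
  have h1 : t ∈ Subgroup.normalizer (Y : Set G) := by
    rw [Subgroup.mem_normalizer_iff]
    intro x
    refine ⟨fun hx => (h x hx).1, fun hx => ?_⟩
    have := (h _ hx).2
    convert this using 1
    group
  exact (Subgroup.mem_normalizer_iff.1 (Subgroup.zpow_mem _ h1 k) y).1 hy

theorem r_mul {t : G} {Y : Subgroup G} (h : Nz t Y) {k l : ℤ} {y z : G}
    (hy : (t ^ k)⁻¹ * y ∈ Y) (hz : (t ^ l)⁻¹ * z ∈ Y) : (t ^ (k + l))⁻¹ * (y * z) ∈ Y := by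
  have := Y.mul_mem (nz_conj h (-l) hy) hz
  convert this using 1
  group

theorem r_inv {t : G} {Y : Subgroup G} (h : Nz t Y) {k : ℤ} {y : G}
    (hy : (t ^ k)⁻¹ * y ∈ Y) : (t ^ (-k))⁻¹ * y⁻¹ ∈ Y := by
  have := nz_conj h k (Y.inv_mem hy)
  convert this using 1
  group

theorem r_zpow {t : G} {Y : Subgroup G} (h : Nz t Y) {k : ℤ} {y : G}
    (hy : (t ^ k)⁻¹ * y ∈ Y) (n : ℤ) : (t ^ (n * k))⁻¹ * y ^ n ∈ Y := by
  induction n using Int.induction_on with
  | zero => simp
  | succ n ih =>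
    have := r_mul h ih hy
    convert this using 1
    group
  | pred n ih =>
    have := r_mul h ih (r_inv h hy)
    convert this using 1
    group

theorem mem_sup_z {t : G} {Y : Subgroup G} (h : Nz t Y) {y : G}
    (hy : y ∈ Y ⊔ Subgroup.zpowers t) : ∃ k : ℤ, (t ^ k)⁻¹ * y ∈ Y := by
  let Q : Subgroup G :=
    { carrier := {y | ∃ k : ℤ, (t ^ k)⁻¹ * y ∈ Y}
      one_mem' := ⟨0, by simp⟩
      mul_mem' := fun ⟨k, hk⟩ ⟨l, hl⟩ => ⟨k + l, r_mul h hk hl⟩
      inv_mem' := fun ⟨k, hk⟩ => ⟨-k, r_inv h hk⟩ }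
  have h1 : Y ⊔ Subgroup.zpowers t ≤ Q := by
    refine sup_le (fun x hx => ⟨0, by simpa using hx⟩) ?_
    rw [Subgroup.zpowers_le]
    exact ⟨1, by simp⟩
  exact h1 hy

/-- a normalising element with a power in `Y` gives a finite extension -/
theorem fi_sup_z {t : G} {Y : Subgroup G} (h : Nz t Y) {n : ℤ} (hn : n ≠ 0) (ht : t ^ n ∈ Y) :
    Y.relIndex (Y ⊔ Subgroup.zpowers t) ≠ 0 := by
  refine of_cov (S := (fun r : ℤ => t ^ r) '' Set.Icc 0 |n|)
    ((Set.finite_Icc _ _).image _) ?_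
  intro y hy
  obtain ⟨k, hk⟩ := mem_sup_z h hy
  refine ⟨t ^ (k % n), ⟨k % n, ⟨Int.emod_nonneg k hn, (Int.emod_lt_abs k hn).le⟩, rfl⟩, ?_⟩
  have h1 := Y.mul_mem (Y.zpow_mem ht (k / n)) hk
  convert h1 using 1
  have h2 : k = n * (k / n) + k % n := (Int.mul_ediv_add_emod k n).symm
  generalize k / n = q at h2 ⊢
  generalize k % n = r at h2 ⊢
  subst h2
  group

theorem pw_conj {X : Subgroup G} (n : ℕ) {g : G} (hg : ∀ x ∈ X, g * x * g⁻¹ ∈ X) :
    ∀ w ∈ pw X n, g * w * g⁻¹ ∈ pw X n := by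
  have h1 : pw X n ≤ (pw X n).comap (MulAut.conj g).toMonoidHom := by
    refine (Subgroup.closure_le _).2 ?_
    rintro x ⟨y, hy, rfl⟩
    refine Subgroup.subset_closure ⟨g * y * g⁻¹, hg y hy, ?_⟩
    simp [conj_pow]
  intro w hw
  exact h1 hw

theorem pw_nz {t : G} {X : Subgroup G} (h : Nz t X) (n : ℕ) : Nz t (pw X n) := by
  intro w hw
  refine ⟨pw_conj n (fun x hx => (h x hx).1) w hw, ?_⟩
  have := pw_conj n (g := t⁻¹) (fun x hx => by simpa using (h x hx).2) w hw
  simpa using this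

theorem pw_normal (X : Subgroup G) [hX : X.Normal] (n : ℕ) : (pw X n).Normal :=
  ⟨fun w hw g => pw_conj n (fun x hx => hX.conj_mem x hx g) w hw⟩

theorem pw_le {X W : Subgroup G} {n : ℕ} (h : ∀ x ∈ X, x ^ n ∈ W) : pw X n ≤ W := by
  refine (Subgroup.closure_le _).2 ?_
  rintro x ⟨y, hy, rfl⟩
  exact h y hy

theorem pow_mem_pw {X : Subgroup G} (n : ℕ) {x : G} (hx : x ∈ X) : x ^ n ∈ pw X n :=
  Subgroup.subset_closure ⟨x, hx, rfl⟩

end Cover

section Ind

variable {G : Type} [Group G]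

theorem ind (hC : BCom) (hG : Group.FG G) (hV : VN G) (P : Subgroup G → Prop) (h0 : P ⊥)
    (h1 : ∀ H H' : Subgroup G, H ≤ H' → H.relIndex H' ≠ 0 → P H → P H')
    (h2 : ∀ (H : Subgroup G) (t : G), Nz t H → (∀ n : ℤ, t ^ n ∈ H → n = 0) → P H →
      P (H ⊔ Subgroup.zpowers t)) : P ⊤ := by
  obtain ⟨-, H, d, hn, hi, hd⟩ := hV
  have step : ∀ (Y : Subgroup G) (t : G), Nz t Y → P Y → P (Y ⊔ Subgroup.zpowers t) := by
    intro Y t ht hY
    by_cases hc : ∀ n : ℤ, t ^ n ∈ Y → n = 0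
    · exact h2 Y t ht hc hY
    · push Not at hc
      obtain ⟨n, hn1, hn2⟩ := hc
      exact h1 Y _ le_sup_left (fi_sup_z ht hn2 hn1) hY
  have hfg : H.FG := (Group.fg_iff_subgroup_fg H).1 inferInstance
  obtain ⟨T, hT, hTf⟩ := (Subgroup.fg_iff H).1 hfg
  have down : ∀ m, P (H.lowerCentralSeries (m + 1)) → P (H.lowerCentralSeries m) := by
    intro m hm
    have key : ∀ S : Set G, S.Finite → (∀ s ∈ S, s ∈ H.lowerCentralSeries m) →
        P (Subgroup.closure S ⊔ H.lowerCentralSeries (m + 1)) := by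
      intro S hS
      induction S, hS using Set.Finite.induction_on with
      | empty => intro _; simpa using hm
      | @insert t S _ _ ih =>
        intro hS
        have hY := ih fun s hs => hS s (Set.mem_insert_of_mem _ hs)
        have ht : t ∈ H := H.lowerCentralSeries_le_self m (hS t (Set.mem_insert _ _))
        have hle : Subgroup.closure S ⊔ H.lowerCentralSeries (m + 1) ≤ H.lowerCentralSeries m :=
          sup_le ((Subgroup.closure_le _).2 fun s hs => hS s (Set.mem_insert_of_mem _ hs))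
            (H.lowerCentralSeries_antitone (Nat.le_succ m))
        have hc : ∀ g ∈ H, ∀ y ∈ Subgroup.closure S ⊔ H.lowerCentralSeries (m + 1),
            g * y * g⁻¹ ∈ Subgroup.closure S ⊔ H.lowerCentralSeries (m + 1) := by
          intro g hg y hy
          have h3 : ⁅y, g⁆ ∈ H.lowerCentralSeries (m + 1) :=
            Subgroup.commutator_mem_commutator (hle hy) hg
          have h4 := Subgroup.mul_mem _ (Subgroup.inv_mem _ (Subgroup.mem_sup_right h3)) hy
          convert h4 using 1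
          rw [commutatorElement_def]
          group
        have hz : Nz t (Subgroup.closure S ⊔ H.lowerCentralSeries (m + 1)) := by
          intro y hy
          refine ⟨hc t ht y hy, ?_⟩
          simpa using hc t⁻¹ (H.inv_mem ht) y hy
        have h5 := step _ t hz hY
        convert h5 using 1
        rw [Set.insert_eq, Subgroup.closure_union, ← Subgroup.zpowers_eq_closure, sup_assoc,
          sup_comm]
    have hfin : {y | ∃ x : Fin (m + 1) → G, (∀ i, x i ∈ T) ∧ y = lc m x}.Finite := by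
      refine ((Set.Finite.pi' fun _ : Fin (m + 1) => hTf).image (lc m)).subset ?_
      rintro y ⟨x, hx, rfl⟩
      exact ⟨x, hx, rfl⟩
    have hmem : ∀ s ∈ {y | ∃ x : Fin (m + 1) → G, (∀ i, x i ∈ T) ∧ y = lc m x},
        s ∈ H.lowerCentralSeries m := by
      rintro y ⟨x, hx, rfl⟩
      exact hC.mem G H m x fun i => hT ▸ Subgroup.subset_closure (hx i)
    have h6 := key _ hfin hmem
    convert h6 using 1
    refine le_antisymm ?_ (sup_le ((Subgroup.closure_le _).2 hmem)
      (H.lowerCentralSeries_antitone (Nat.le_succ m)))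
    have := hC.gen G T m
    rwa [hT] at this
  have all : ∀ m, P (H.lowerCentralSeries m) → P H := by
    intro m
    induction m with
    | zero => exact id
    | succ m ih => exact fun h => ih (down m h)
  refine h1 H ⊤ le_top ?_ (all d ?_)
  · rw [Subgroup.relIndex_top_right]
    exact hi.index_ne_zero
  · rw [le_bot_iff.1 hd]
    exact h0

theorem fg_closure {S : Set G} (hS : S.Finite) : (Subgroup.closure S).FG :=
  (Subgroup.fg_iff _).2 ⟨S, rfl, hS⟩

theorem fg (hC : BCom) (hG : Group.FG G) (hV : VN G) (H : Subgroup G) : H.FG := by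
  refine ind hC hG hV (fun X => ∀ H : Subgroup G, H ≤ X → H.FG) ?_ ?_ ?_ H le_top
  · intro H hH
    rw [le_bot_iff.1 hH]
    exact Subgroup.FG.bot
  · intro X X' _ hi hX H hH
    have hi' : X.relIndex H ≠ 0 := fun h => hi (Subgroup.relIndex_eq_zero_of_le_right hH h)
    obtain ⟨S, hS, hSH, hc⟩ := cov_of hi'
    have h1 := (fg_closure hS).sup (hX (H ⊓ X) inf_le_right)
    convert h1 using 1
    refine le_antisymm ?_ (sup_le ((Subgroup.closure_le _).2 hSH) inf_le_left)
    intro y hy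
    obtain ⟨s, hs, hsy⟩ := hc y hy
    have h2 := Subgroup.mul_mem_sup (Subgroup.subset_closure hs : s ∈ Subgroup.closure S)
      (Subgroup.mem_inf.2 ⟨H.mul_mem (H.inv_mem (hSH s hs)) hy, hsy⟩ : s⁻¹ * y ∈ H ⊓ X)
    simpa using h2
  · intro X t hz _ hX H hH
    let A : AddSubgroup ℤ :=
      { carrier := {k | ∃ y ∈ H, (t ^ k)⁻¹ * y ∈ X}
        zero_mem' := ⟨1, H.one_mem, by simp⟩
        add_mem' := fun ⟨y, hy, hk⟩ ⟨z, hz', hl⟩ => ⟨y * z, H.mul_mem hy hz', r_mul hz hk hl⟩
        neg_mem' := fun ⟨y, hy, hk⟩ => ⟨y⁻¹, H.inv_mem hy, r_inv hz hk⟩ }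
    obtain ⟨a, ha⟩ := Int.subgroup_cyclic A
    have haA : a ∈ A := ha ▸ AddSubgroup.subset_closure rfl
    obtain ⟨s, hs, hsa⟩ := haA
    have h1 := (fg_closure (Set.finite_singleton s)).sup (hX (H ⊓ X) inf_le_right)
    convert h1 using 1
    refine le_antisymm ?_ (sup_le ((Subgroup.closure_le _).2 (Set.singleton_subset_iff.2 hs))
      inf_le_left)
    intro y hy
    obtain ⟨k, hk⟩ := mem_sup_z hz (hH hy)
    have hkA : k ∈ A := ⟨y, hy, hk⟩
    rw [ha, AddSubgroup.mem_closure_singleton] at hkA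
    obtain ⟨n, rfl⟩ := hkA
    have h2 := r_mul hz (r_inv hz (r_zpow hz hsa n)) hk
    have h3 : (s ^ n)⁻¹ * y ∈ X := by simpa using h2
    have h4 := Subgroup.mul_mem_sup
      (Subgroup.zpow_mem _ (Subgroup.subset_closure rfl : s ∈ Subgroup.closure {s}) n)
      (Subgroup.mem_inf.2 ⟨H.mul_mem (H.inv_mem (H.zpow_mem hs n)) hy, h3⟩ :
        (s ^ n)⁻¹ * y ∈ H ⊓ X)
    simpa using h4

/-- subgroups that contain all `n`-th powers have finite index -/
def FI (X : Subgroup G) : Prop :=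
  ∀ n : ℕ, 0 < n → ∀ W : Subgroup G, (∀ x ∈ X, x ^ n ∈ W) → W.relIndex X ≠ 0

/-- residual finiteness -/
def RF (X : Subgroup G) : Prop :=
  ∀ x ∈ X, x ≠ 1 → ∃ D : Subgroup G, D ≤ X ∧ D.relIndex X ≠ 0 ∧ x ∉ D

theorem fi_fin {X X' : Subgroup G} (hle : X ≤ X') (hi : X.relIndex X' ≠ 0) (h : FI X) :
    FI X' := fun n hn W hW =>
  Subgroup.relIndex_ne_zero_trans (h n hn W fun x hx => hW x (hle hx)) hi

theorem fi_cyc {X : Subgroup G} {t : G} (hz : Nz t X) (h : FI X) :
    FI (X ⊔ Subgroup.zpowers t) := by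
  intro n hn W hW
  have hle : pw X n ≤ W := pw_le fun x hx => hW x (Subgroup.mem_sup_left hx)
  have ht : t ^ n ∈ W := hW t (Subgroup.mem_sup_right (Subgroup.mem_zpowers t))
  obtain ⟨S, hS, -, hc⟩ := cov_of (h n hn (pw X n) fun x hx => pow_mem_pw n hx)
  refine of_cov (S := (fun p : G × ℤ => p.1 * t ^ p.2) '' S ×ˢ Set.Icc 0 (n : ℤ))
    ((hS.prod (Set.finite_Icc _ _)).image _) ?_
  intro y hy
  obtain ⟨k, hk⟩ := mem_sup_z hz hy
  obtain ⟨s, hs, hsy⟩ := hc _ (nz_conj hz k hk)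
  have hn' : (0 : ℤ) < n := by exact_mod_cast hn
  refine ⟨s * t ^ (k % n), ⟨(s, k % n), ⟨hs, Int.emod_nonneg k hn'.ne',
    (Int.emod_lt_of_pos k hn').le⟩, rfl⟩, ?_⟩
  have h1 := W.mul_mem (hle (nz_conj (pw_nz hz n) (-(k % n)) hsy)) (W.zpow_mem ht (k / n))
  convert h1 using 1
  have h2 : k = n * (k / n) + k % n := (Int.mul_ediv_add_emod k n).symm
  generalize k / n = q at h2 ⊢
  generalize k % n = r at h2 ⊢
  subst h2
  rw [← zpow_natCast]
  group

theorem rf_fin {X X' : Subgroup G} (hle : X ≤ X') (hi : X.relIndex X' ≠ 0) (h : RF X) :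
    RF X' := by
  intro x _ hx
  by_cases hX : x ∈ X
  · obtain ⟨D, h1, h2, h3⟩ := h x hX hx
    exact ⟨D, h1.trans hle, Subgroup.relIndex_ne_zero_trans h2 hi, h3⟩
  · exact ⟨X, hle, hi, hX⟩

theorem rf_cyc {X : Subgroup G} {t : G} (hz : Nz t X) (h0 : ∀ n : ℤ, t ^ n ∈ X → n = 0)
    (hF : FI X) (h : RF X) : RF (X ⊔ Subgroup.zpowers t) := by
  intro y hy hy1
  have hF' := fi_cyc hz hF
  by_cases hX : y ∈ X
  · obtain ⟨D, h1, h2, h3⟩ := h y hX hy1
    have hpos : 0 < (D.relIndex X).factorial := Nat.factorial_pos _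
    set N := (D.relIndex X).factorial with hN
    have hle : pw X N ≤ D := pw_le fun x hx =>
      (Subgroup.pow_mem_of_relIndex_ne_zero_of_dvd h2 hx fun m hm hm' =>
        Nat.dvd_factorial hm hm').1
    refine ⟨pw X N ⊔ Subgroup.zpowers t, sup_le_sup_right (hle.trans h1) _, ?_, ?_⟩
    · obtain ⟨S, hS, -, hc⟩ := cov_of (hF N hpos (pw X N) fun x hx => pow_mem_pw N hx)
      refine of_cov hS ?_
      intro w hw
      obtain ⟨k, hk⟩ := mem_sup_z hz hw
      obtain ⟨s, hs, hsy⟩ := hc _ (nz_conj hz k hk)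
      refine ⟨s, hs, ?_⟩
      have h4 := Subgroup.mul_mem_sup hsy (Subgroup.zpow_mem_zpowers t k)
      convert h4 using 1
      group
    · intro hm
      obtain ⟨k, hk⟩ := mem_sup_z (pw_nz hz N) hm
      have h4 : t ^ k ∈ X := by
        have := X.mul_mem hX (X.inv_mem (h1 (hle hk)))
        convert this using 1
        group
      rw [h0 k h4] at hk
      exact h3 (hle (by simpa using hk))
  · obtain ⟨n, hn⟩ := mem_sup_z hz hy
    have hn0 : n ≠ 0 := by
      rintro rfl
      exact hX (by simpa using hn)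
    have hz2 : Nz (t ^ (2 * n)) X := by
      intro x hx
      refine ⟨nz_conj hz _ hx, ?_⟩
      have := nz_conj hz (-(2 * n)) hx
      convert this using 1
      group
    have hz3 : Nz t (X ⊔ Subgroup.zpowers (t ^ (2 * n))) := by
      have hc : ∀ l : ℤ, ∀ x ∈ X ⊔ Subgroup.zpowers (t ^ (2 * n)),
          t ^ l * x * (t ^ l)⁻¹ ∈ X ⊔ Subgroup.zpowers (t ^ (2 * n)) := by
        intro l x hx
        obtain ⟨k, hk⟩ := mem_sup_z hz2 hx
        have h4 := Subgroup.mul_mem _
          (Subgroup.mem_sup_right (S := X) (Subgroup.zpow_mem_zpowers (t ^ (2 * n)) k))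
          (Subgroup.mem_sup_left (nz_conj hz l hk))
        convert h4 using 1
        group
      intro x hx
      exact ⟨by simpa using hc 1 x hx, by simpa using hc (-1) x hx⟩
    have hle : X ⊔ Subgroup.zpowers (t ^ (2 * n)) ≤ X ⊔ Subgroup.zpowers t := by
      refine sup_le_sup_left ?_ _
      rw [Subgroup.zpowers_le]
      exact Subgroup.zpow_mem_zpowers _ _
    refine ⟨X ⊔ Subgroup.zpowers (t ^ (2 * n)), hle, ?_, ?_⟩
    · have h4 := fi_sup_z hz3 (n := 2 * n) (by omega)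
        (Subgroup.mem_sup_right (Subgroup.mem_zpowers _))
      exact fun h5 => h4 (Subgroup.relIndex_eq_zero_of_le_right
        (sup_le_sup_right le_sup_left _) h5)
    · intro hm
      obtain ⟨k, hk⟩ := mem_sup_z hz2 hm
      have h4 : t ^ (2 * n * k - n) ∈ X := by
        have := X.mul_mem hn (X.inv_mem hk)
        convert this using 1
        group
      have h5 := h0 _ h4
      have h6 : n * (2 * k - 1) = 0 := by linarith
      rcases mul_eq_zero.1 h6 with h7 | h7
      · exact hn0 h7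
      · omega

theorem fi_rf (hC : BCom) (hG : Group.FG G) (hV : VN G) :
    FI (⊤ : Subgroup G) ∧ RF (⊤ : Subgroup G) := by
  refine ind hC hG hV (fun X => FI X ∧ RF X) ⟨?_, ?_⟩ ?_ ?_
  · intro n _ W _
    rw [Subgroup.relIndex_bot_right]
    exact one_ne_zero
  · intro x hx hx1
    exact absurd (Subgroup.mem_bot.1 hx) hx1
  · intro X X' hle hi h
    exact ⟨fi_fin hle hi h.1, rf_fin hle hi h.2⟩
  · intro X t hz h0 h
    exact ⟨fi_cyc hz h.1, rf_cyc hz h0 h.1 h.2⟩

theorem rf (hC : BCom) (hG : Group.FG G) {K : Subgroup G} (hK : CoVN K) {x : G} (hx : x ∉ K) :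
    ∃ D : Subgroup G, D.Normal ∧ D.FiniteIndex ∧ x ∉ D := by
  have hn := hK.1
  obtain ⟨D, -, h2, h3⟩ := (fi_rf hC inferInstance ((quot K).1 hK)).2
    (QuotientGroup.mk' K x) (Subgroup.mem_top _) (by simpa using hx)
  rw [Subgroup.relIndex_top_right] at h2
  have : D.FiniteIndex := ⟨h2⟩
  exact ⟨D.normalCore.comap (QuotientGroup.mk' K), inferInstance,
    fi_comap _ _ inferInstance, fun h => h3 (D.normalCore_le h)⟩

theorem fi_sub (hC : BCom) (hG : Group.FG G) (hV : VN G) (X : Subgroup G) : FI X := by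
  intro n hn W hW
  have h1 : Group.FG X := (Group.fg_iff_subgroup_fg X).2 (fg hC hG hV X)
  have h2 : VN X := by
    have := comap X.subtype hV
    rwa [MonoidHom.comap_bot, X.ker_subtype] at this
  have h3 := (fi_rf hC h1 h2).1 n hn (W.subgroupOf X) fun x _ => hW x x.2
  rwa [Subgroup.relIndex_top_right] at h3

theorem inf_of_fi {D B : Subgroup G} (h : D.relIndex B ≠ 0) (hle : D ≤ B) (hB : ¬ Finite B) :
    ¬ Finite D := by
  intro hD
  apply hB
  have h1 := Subgroup.relIndex_mul_relIndex (⊥ : Subgroup G) D B bot_le hle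
  rw [Subgroup.relIndex_bot_left, Subgroup.relIndex_bot_left] at h1
  apply Nat.finite_of_card_ne_zero
  rw [← h1]
  exact mul_ne_zero Nat.card_pos.ne' h

theorem cen (hC : BCom) (hG : Group.FG G) (hV : VN G) (hI : Infinite G) :
    ∃ Z : Subgroup G, Z.Normal ∧ Z ≠ ⊥ ∧ Cm Z Z ∧ (∀ z ∈ Z, IsOfFinOrder z → z = 1) ∧
      (Subgroup.centralizer (Z : Set G)).FiniteIndex := by
  obtain ⟨-, H, d, hn, hi, hd⟩ := id hV
  have hH : ¬ Finite H := fun h =>
    not_finite_iff_infinite.2 hI ((Subgroup.finite_iff_finite_and_finiteIndex H).2 ⟨h, hi⟩)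
  obtain ⟨j, hj, hj'⟩ : ∃ j, ¬ Finite (H.lowerCentralSeries j) ∧
      Finite (H.lowerCentralSeries (j + 1)) := by
    by_contra hc
    push Not at hc
    have : ∀ j, ¬ Finite (H.lowerCentralSeries j) := by
      intro j
      induction j with
      | zero => exact hH
      | succ j ih => exact not_finite_iff_infinite.2 (hc j (not_finite_iff_infinite.1 ih))
    apply this d
    rw [le_bot_iff.1 hd]
    infer_instance
  set A := H.lowerCentralSeries j with hA
  set F := H.lowerCentralSeries (j + 1) with hF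
  have hcf := cent_fi F
  set C := H ⊓ Subgroup.centralizer (F : Set G) with hCdef
  have hCi : C.FiniteIndex := inferInstance
  have hCn : C.Normal := inferInstance
  have hB : ¬ Finite (C ⊓ A : Subgroup G) := by
    refine inf_of_fi ?_ inf_le_right hj
    rw [Subgroup.inf_relIndex_right]
    intro h0
    have := Subgroup.relIndex_eq_zero_of_le_right (le_top : A ≤ ⊤) h0
    rw [Subgroup.relIndex_top_right] at this
    exact hCi.index_ne_zero this
  have hnpos : 0 < Nat.card F := Nat.card_pos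
  set n := Nat.card F with hn'
  have hpow : ∀ a ∈ C ⊓ A, ∀ h ∈ C, h * a ^ n = a ^ n * h := by
    intro a ha h hh
    have h1 : ⁅a, h⁆ ∈ F := Subgroup.commutator_mem_commutator ha.2 hh.1
    have h2 : Commute ⁅a, h⁆⁻¹ a :=
      (Subgroup.mem_centralizer_iff.1 ha.1.2 _ (F.inv_mem h1))
    have h3 : (⁅a, h⁆⁻¹) ^ n = 1 := by
      have := pow_card_eq_one' (G := F) (x := ⟨_, F.inv_mem h1⟩)
      exact congrArg Subtype.val this
    have h4 : h * a * h⁻¹ = ⁅a, h⁆⁻¹ * a := by
      rw [commutatorElement_def]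
      group
    have h5 : h * a ^ n * h⁻¹ = a ^ n := by
      rw [← conj_pow, h4, h2.mul_pow, h3, one_mul]
    calc h * a ^ n = h * a ^ n * h⁻¹ * h := by group
      _ = a ^ n * h := by rw [h5]
  set Z := pw (C ⊓ A) n with hZ
  have hZn : Z.Normal := pw_normal _ n
  have hZC : Z ≤ C ⊓ A := pw_le fun x hx => Subgroup.pow_mem _ hx n
  have hZc : Z ≤ Subgroup.centralizer (C : Set G) :=
    pw_le fun x hx => Subgroup.mem_centralizer_iff.2 fun h hh => hpow x hx h hh
  have hZi : ¬ Finite Z :=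
    inf_of_fi (fi_sub hC hG hV _ n hnpos Z fun x hx => pow_mem_pw n hx) hZC hB
  have hcomm : ∀ x ∈ Z, ∀ y ∈ Z, Commute x y := fun x hx y hy =>
    Subgroup.mem_centralizer_iff.1 (hZc hy) x (hZC hx).1
  let T : Subgroup G :=
    { carrier := {x | x ∈ Z ∧ IsOfFinOrder x}
      one_mem' := ⟨Z.one_mem, IsOfFinOrder.one⟩
      mul_mem' := fun {x y} hx hy =>
        ⟨Z.mul_mem hx.1 hy.1, (hcomm x hx.1 y hy.1).isOfFinOrder_mul hx.2 hy.2⟩
      inv_mem' := fun hx => ⟨Z.inv_mem hx.1, hx.2.inv⟩ }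
  obtain ⟨S, hS⟩ := fg hC hG hV T
  have hST : ∀ s ∈ S, s ∈ T := fun s hs => hS ▸ Subgroup.subset_closure hs
  have hmpos : 0 < ∏ s ∈ S, orderOf s :=
    Finset.prod_pos fun s hs => (hST s hs).2.orderOf_pos
  set m := ∏ s ∈ S, orderOf s with hm
  let E : Subgroup G :=
    { carrier := {x | x ∈ Z ∧ x ^ m = 1}
      one_mem' := ⟨Z.one_mem, one_pow m⟩
      mul_mem' := fun {x y} hx hy => ⟨Z.mul_mem hx.1 hy.1, by
        rw [(hcomm x hx.1 y hy.1).mul_pow, hx.2, hy.2, one_mul]⟩
      inv_mem' := fun hx => ⟨Z.inv_mem hx.1, by rw [inv_pow, hx.2, inv_one]⟩ }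
  have hTE : T ≤ E := by
    rw [← hS, Subgroup.closure_le]
    intro s hs
    exact ⟨(hST s hs).1, orderOf_dvd_iff_pow_eq_one.1 (Finset.dvd_prod_of_mem _ hs)⟩
  let W : Subgroup G :=
    { carrier := {x | ∃ y ∈ Z, x = y ^ m}
      one_mem' := ⟨1, Z.one_mem, (one_pow m).symm⟩
      mul_mem' := by
        rintro _ _ ⟨x, hx, rfl⟩ ⟨y, hy, rfl⟩
        exact ⟨x * y, Z.mul_mem hx hy, ((hcomm x hx y hy).mul_pow m).symm⟩
      inv_mem' := by
        rintro _ ⟨x, hx, rfl⟩
        exact ⟨x⁻¹, Z.inv_mem hx, (inv_pow x m).symm⟩ }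
  have hWZ : W ≤ Z := by
    rintro _ ⟨x, hx, rfl⟩
    exact Z.pow_mem hx m
  have hWi : ¬ Finite W :=
    inf_of_fi (fi_sub hC hG hV _ m hmpos W fun x hx => ⟨x, hx, rfl⟩) hWZ hZi
  refine ⟨W, ⟨?_⟩, ?_, fun x hx y hy => hcomm x (hWZ hx) y (hWZ hy), ?_, ?_⟩
  · rintro _ ⟨x, hx, rfl⟩ g
    exact ⟨g * x * g⁻¹, hZn.conj_mem x hx g, conj_pow.symm⟩
  · intro h
    apply hWi
    rw [h]
    infer_instance
  · rintro _ ⟨x, hx, rfl⟩ h
    exact (hTE ⟨hx, h.of_pow hmpos.ne'⟩).2
  · refine Subgroup.finiteIndex_of_le (H := C) ?_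
    intro h hh
    rw [Subgroup.mem_centralizer_iff]
    intro w hw
    exact (Subgroup.mem_centralizer_iff.1 (hZc (hWZ hw)) h hh).symm

end Ind

end BVnA

theorem bVn (hC : BCom) : BVn where
  mono := fun _ _ _ _ h hle hn => BVnA.mono h hle hn
  inf := fun _ _ _ _ h h' => BVnA.inf h h'
  comap := fun _ _ _ _ f _ h => BVnA.comap f h
  map := fun _ _ _ _ f _ hf h => BVnA.map f hf h
  ofComap := fun _ _ _ _ f _ hf h => BVnA.ofComap f hf h
  quot := fun _ _ K _ => BVnA.quot K
  fin := fun _ _ _ _ h hn _ hi => BVnA.fin h hn hi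
  itc := fun _ _ _ _ n h hD hi => BVnA.itc' n h hD hi
  lcs := fun _ _ D n hD hi => ⟨inferInstance, D, n, hD, hi, le_rfl⟩
  fg := fun _ _ hG hV H => BVnA.fg hC hG hV H
  rf := fun _ _ hG _ hK _ hx => BVnA.rf hC hG hK hx
  cen := fun _ _ hG hV hI => BVnA.cen hC hG hV hI
  ind := fun _ _ hG hV P h0 h1 h2 => BVnA.ind hC hG hV P h0 h1 h2

end Pool.Agent.MP_5c28a4_al.H89S
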