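import Pool.Agent.MP_5c28a4_al.H89S.Base8

/-!
Row S8-TR: the data pass to ultrapowers and to subgroups.
-/

set_option autoImplicit false

namespace Pool.Agent.MP_5c28a4_al.H89S

open scoped commutatorElement

namespace TrA

variable {G : Type} [Group G]

theorem germ_pow (y : ℕ → G) (m : ℕ) : germ y ^ m = germ fun n => y n ^ m := by
  induction m with
  | zero =>
    simp only [pow_zero]
    rfl
  | succ m ih =>
    simp only [pow_succ, ih]
    rfl

theorem star_mono (hU : BUlt) {H K : Subgroup G} (h : H ≤ K) : star H ≤ star K := by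
  intro x hx
  obtain ⟨y, rfl⟩ := hU.surj G x
  rw [hU.mem] at hx ⊢
  exact hx.mono fun n hn => h hn

theorem mu_star (hU : BUlt) (P : Subgroup G) (j d : ℕ) : mu (star P) j d ≤ star (mu P j d) := by
  refine sup_le ((Subgroup.closure_le _).2 ?_)
    ((hU.lcs G P (j + 1)).trans (star_mono hU le_sup_right))
  rintro _ ⟨x, hx, rfl⟩
  obtain ⟨y, rfl⟩ := hU.surj G x
  have h1 := (hU.mem G _ y).1 (hU.lcs G P j hx)
  rw [germ_pow]
  exact (hU.mem G _ _).2 (h1.mono fun n hn => pow_mem_mu P j d hn)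

theorem comm_le {G' : Type} [Group G'] (ι : G' →* G) (K' : Subgroup G') [K'.Normal]
    {A B : Subgroup G'} {A' B' C : Subgroup G} (hB : B ≤ K') (hA' : A.map ι ≤ A')
    (hB' : B.map ι ≤ B') (hC : ⁅A', B'⁆ ≤ C) : ⁅A, B⁆ ≤ K' ⊓ C.comap ι := by
  refine le_inf ((Subgroup.commutator_mono le_rfl hB).trans (Subgroup.commutator_le_right _ _)) ?_
  rw [← Subgroup.map_le_iff_le_comap, Subgroup.map_commutator]
  exact (Subgroup.commutator_mono hA' hB').trans hC

end TrA

open TrA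

theorem tru (hF : BFin) (hS : BSt) (hU : BUlt) : STrU := by
  intro S h q c i e 𝒮 G _ L D
  refine ⟨hU.inV S G D.inV, hU.tower G h q L D.tow, hU.st G _ c D.st,
    (hU.lcs G _ e).trans (star_mono hU D.nil), fun t ht => ⟨(D.pis t ht).1, ?_⟩⟩
  obtain ⟨hr, hP⟩ := D.pis t ht
  obtain ⟨P, -, -, -, h1, -⟩ := hS.part G (L 0) (L i) e t.1 hr (D.tow.normal 0) (D.tow.normal i)
    (D.tow.le (Nat.zero_le i)) (hF.towerExp G h q L D.tow).1 D.nil
  have h2 := hP P (fun x hx => ((h1 x).1 hx).1) fun x hx => ((h1 x).1 hx).2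
  intro X hX hM
  have h3 : X ≤ star P := by
    intro x hx
    obtain ⟨y, rfl⟩ := hU.surj G x
    obtain ⟨m, hm⟩ := hM _ hx
    rw [germ_pow] at hm
    have h4 := (hU.mem G _ _).1 hm
    have h5 := (hU.mem G _ _).1 (hX hx)
    exact (hU.mem G _ _).2 ((h5.and h4).mono fun n hn => (h1 _).2 ⟨hn.1, m, hn.2⟩)
  exact (Subgroup.commutator_mono ((mu_mono h3 _ _).trans (mu_star hU P _ _)) le_rfl).trans
    ((hU.comm G _ _).trans (star_mono hU h2))

theorem tre : STrE := by
  intro S h q c i e 𝒮 G G' _ _ L ι K' D hι hK _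
  have hm : ∀ a, (K' ⊓ (L a).comap ι).map ι ≤ L a := fun a =>
    Subgroup.map_le_iff_le_comap.2 inf_le_right
  refine ⟨D.inV.of_inj ι hι, ⟨fun a => ?_, fun a => ?_, ?_, D.tow.prime, fun a => ?_,
    fun a x hx => ?_⟩, ?_, ?_, fun t ht => ⟨(D.pis t ht).1, fun X hX hM => ?_⟩⟩
  · have := D.tow.normal a
    infer_instance
  · exact inf_le_inf_left _ (Subgroup.comap_mono (D.tow.anti a))
  · rw [D.tow.bot, MonoidHom.comap_bot, ι.ker_eq_bot hι, inf_bot_eq]
  · exact comm_le ι K' inf_le_left (hm a) (hm a) (D.tow.comm a)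
  · refine ⟨pow_mem hx.1 _, ?_⟩
    have := D.tow.pow a _ hx.2
    rwa [← map_pow] at this
  · intro p hp P hP hfin hpg
    have h1 : Finite (P.map ι) := Finite.of_surjective _ (ι.subgroupMap_surjective P)
    have h2 := D.st p hp (P.map ι) ((Subgroup.map_mono hP).trans (hm 0)) h1 (hpg.map ι)
    rwa [← Subgroup.map_lowerCentralSeries, Subgroup.map_eq_bot_iff_of_injective _ hι] at h2
  · refine le_inf ((lcs_le _ e).trans inf_le_left) ?_
    rw [← Subgroup.map_le_iff_le_comap, Subgroup.map_lowerCentralSeries]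
    exact (Subgroup.lowerCentralSeries_mono e (hm 0)).trans D.nil
  · refine comm_le ι K' inf_le_left (mu_map ι X _ _).le (hm i)
      ((D.pis t ht).2 (X.map ι) ((Subgroup.map_mono hX).trans (hm 0)) ?_)
    rintro _ ⟨x, hx, rfl⟩
    obtain ⟨m, hm'⟩ := hM x hx
    exact ⟨m, by rw [← map_pow]; exact hm'.2⟩

end Pool.Agent.MP_5c28a4_al.H89S
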